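import Pool.Agent.T9h57.QD.Spec2

/-!
# One slot: `LenX`, `DivX`, `EquiX`, `TwistX` (partial summation of periodic functions with mean 0)
-/

set_option autoImplicit false

namespace Pool.Agent.T9h11.QD

open Finset Pool.Agent.T9h57.QD

section abel

variable {E : Type*} [NormedAddCommGroup E] [NormedSpace ℝ E]

lemma per_shift (g : ℕ → E) (T : ℕ) (hper : ∀ x, g (x + T) = g x) (s : ℕ) :
    ∑ x ∈ range T, g (x + s) = ∑ x ∈ range T, g x := by
  induction s with
  | zero => simp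
  | succ s ih =>
    rw [← ih]
    have h1 := Finset.sum_range_succ (fun x => g (x + s)) T
    have h2 := Finset.sum_range_succ' (fun x => g (x + s)) T
    have h3 : g (T + s) = g (0 + s) := by
      rw [Nat.add_comm T s, hper s, Nat.zero_add]
    have h4 : ∑ x ∈ range T, g (x + 1 + s) + g (0 + s) = ∑ x ∈ range T, g (x + s) + g (T + s) := by
      rw [← h1, h2]
    rw [h3] at h4
    have h5 := add_right_cancel h4
    rw [← h5]
    apply Finset.sum_congr rfl
    intro x _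
    congr 1
    omega

lemma partial_le (g : ℕ → E) (T : ℕ) (hT : 0 < T) (hper : ∀ x, g (x + T) = g x)
    (h0 : ∑ x ∈ range T, g x = 0) (h1 : ∀ x, ‖g x‖ ≤ 1) (n : ℕ) :
    ‖∑ x ∈ range n, g x‖ ≤ T := by
  induction n using Nat.strong_induction_on with
  | _ n ih =>
    by_cases hn : n < T
    · calc ‖∑ x ∈ range n, g x‖ ≤ ∑ x ∈ range n, ‖g x‖ := norm_sum_le _ _
        _ ≤ ∑ x ∈ range n, (1 : ℝ) := Finset.sum_le_sum fun x _ => h1 x
        _ = n := by simp
        _ ≤ T := by exact_mod_cast hn.le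
    · obtain ⟨m, rfl⟩ := Nat.exists_eq_add_of_le (not_lt.1 hn)
      rw [Finset.sum_range_add, h0, zero_add]
      have h2 : ∑ x ∈ range m, g (T + x) = ∑ x ∈ range m, g x := by
        apply Finset.sum_congr rfl
        intro x _
        rw [Nat.add_comm, hper]
      rw [h2]
      exact ih m (by omega)

lemma partial_Ioc_le (g : ℕ → E) (T : ℕ) (hT : 0 < T) (hper : ∀ x, g (x + T) = g x)
    (h0 : ∑ x ∈ range T, g x = 0) (h1 : ∀ x, ‖g x‖ ≤ 1) (A B : ℕ) (hAB : A ≤ B) :
    ‖∑ x ∈ Ioc A B, g x‖ ≤ 2 * T := by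
  have h2 : ∑ x ∈ Ioc A B, g x = ∑ x ∈ range (B + 1), g x - ∑ x ∈ range (A + 1), g x := by
    rw [← Finset.sum_Ico_eq_sub _ (by omega : A + 1 ≤ B + 1)]
    apply Finset.sum_congr _ (fun _ _ => rfl)
    ext x
    simp only [mem_Ioc, mem_Ico]
    omega
  rw [h2]
  calc _ ≤ ‖∑ x ∈ range (B + 1), g x‖ + ‖∑ x ∈ range (A + 1), g x‖ := norm_sub_le _ _
    _ ≤ T + T := add_le_add (partial_le g T hT hper h0 h1 _) (partial_le g T hT hper h0 h1 _)
    _ = 2 * T := by ring

/-- partial summation with the weight `1/x`. -/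
theorem abel (g : ℕ → E) (T : ℕ) (hT : 0 < T) (hper : ∀ x, g (x + T) = g x)
    (h0 : ∑ x ∈ range T, g x = 0) (h1 : ∀ x, ‖g x‖ ≤ 1) (A B : ℕ) :
    ‖∑ x ∈ Ioc A B, (1 / (x : ℝ)) • g x‖ ≤ 2 * T / ((A : ℝ) + 1) := by
  have hTr : (0 : ℝ) < T := by exact_mod_cast hT
  rcases lt_or_ge B A with hBA | hAB
  · rw [Finset.Ioc_eq_empty (by omega)]
    simp
    positivity
  have key : ∀ B, A ≤ B → ‖∑ x ∈ Ioc A B, (1 / (x : ℝ)) • g x -
      (1 / ((B : ℝ) + 1)) • ∑ x ∈ Ioc A B, g x‖ ≤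
        2 * T * (1 / ((A : ℝ) + 1) - 1 / ((B : ℝ) + 1)) := by
    intro B hB
    induction B, hB using Nat.le_induction with
    | base => simp
    | succ B hB ih =>
      have e1 : Ioc A (B + 1) = insert (B + 1) (Ioc A B) := by
        ext x; simp only [mem_Ioc, mem_insert]; omega
      have e2 : B + 1 ∉ Ioc A B := by simp
      rw [e1, Finset.sum_insert e2, Finset.sum_insert e2]
      set P := ∑ x ∈ Ioc A B, g x with hP
      set S := ∑ x ∈ Ioc A B, (1 / (x : ℝ)) • g x with hS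
      have hP1 : ‖g (B + 1) + P‖ ≤ 2 * T := by
        have := partial_Ioc_le g T hT hper h0 h1 A (B + 1) (by omega)
        rwa [e1, Finset.sum_insert e2] at this
      have hpos : (0 : ℝ) ≤ 1 / ((B : ℝ) + 1) - 1 / ((B : ℝ) + 1 + 1) := by
        rw [sub_nonneg]
        exact one_div_le_one_div_of_le (by positivity) (by linarith)
      have e3 : (1 / ((B + 1 : ℕ) : ℝ)) • g (B + 1) + S -
          (1 / (((B + 1 : ℕ) : ℝ) + 1)) • (g (B + 1) + P) =
          (S - (1 / ((B : ℝ) + 1)) • P) +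
            (1 / ((B : ℝ) + 1) - 1 / ((B : ℝ) + 1 + 1)) • (g (B + 1) + P) := by
        push_cast
        module
      rw [e3]
      calc _ ≤ ‖S - (1 / ((B : ℝ) + 1)) • P‖ +
            ‖(1 / ((B : ℝ) + 1) - 1 / ((B : ℝ) + 1 + 1)) • (g (B + 1) + P)‖ := norm_add_le _ _
        _ ≤ 2 * T * (1 / ((A : ℝ) + 1) - 1 / ((B : ℝ) + 1)) +
            (1 / ((B : ℝ) + 1) - 1 / ((B : ℝ) + 1 + 1)) * (2 * T) := by
            apply add_le_add ih
            rw [norm_smul, Real.norm_of_nonneg hpos]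
            exact mul_le_mul_of_nonneg_left hP1 hpos
        _ = _ := by push_cast; ring
  have h2 := key B hAB
  have h3 := partial_Ioc_le g T hT hper h0 h1 A B hAB
  have hB : (0 : ℝ) < 1 / ((B : ℝ) + 1) := by positivity
  calc ‖∑ x ∈ Ioc A B, (1 / (x : ℝ)) • g x‖
      = ‖(∑ x ∈ Ioc A B, (1 / (x : ℝ)) • g x - (1 / ((B : ℝ) + 1)) • ∑ x ∈ Ioc A B, g x) +
        (1 / ((B : ℝ) + 1)) • ∑ x ∈ Ioc A B, g x‖ := by rw [sub_add_cancel]
    _ ≤ 2 * T * (1 / ((A : ℝ) + 1) - 1 / ((B : ℝ) + 1)) + (1 / ((B : ℝ) + 1)) * (2 * T) := by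
        refine (norm_add_le _ _).trans (add_le_add h2 ?_)
        rw [norm_smul, Real.norm_of_nonneg hB.le]
        exact mul_le_mul_of_nonneg_left h3 hB.le
    _ = 2 * T / ((A : ℝ) + 1) := by ring

end abel


/-! ## Logarithms -/

lemma harm (A B : ℕ) (hA : 1 ≤ A) (hAB : A ≤ B) :
    Real.log ((B : ℝ) / A) - 1 / A ≤ ∑ x ∈ Ioc A B, 1 / (x : ℝ) ∧
      ∑ x ∈ Ioc A B, 1 / (x : ℝ) ≤ Real.log ((B : ℝ) / A) := by
  have hA' : (0 : ℝ) < A := by exact_mod_cast hA
  have key : Real.log (((B : ℝ) + 1) / (A + 1)) ≤ ∑ x ∈ Ioc A B, 1 / (x : ℝ) ∧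
      ∑ x ∈ Ioc A B, 1 / (x : ℝ) ≤ Real.log ((B : ℝ) / A) := by
    induction B, hAB using Nat.le_induction with
    | base =>
      have h1 : ((A : ℝ) + 1) / (A + 1) = 1 := div_self (by positivity)
      have h2 : (A : ℝ) / A = 1 := div_self hA'.ne'
      simp [h1, h2]
    | succ B hB ih =>
      have e1 : Ioc A (B + 1) = insert (B + 1) (Ioc A B) := by
        ext x; simp only [mem_Ioc, mem_insert]; omega
      have e2 : B + 1 ∉ Ioc A B := by simp
      have hB' : (0 : ℝ) < B := lt_of_lt_of_le hA' (by exact_mod_cast hB)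
      rw [e1, Finset.sum_insert e2]
      push_cast
      constructor
      · have h3 : ((B : ℝ) + 1 + 1) / (A + 1) = (((B : ℝ) + 1) / (A + 1)) *
            (((B : ℝ) + 1 + 1) / (B + 1)) := by field_simp
        rw [h3, Real.log_mul (by positivity) (by positivity)]
        have h4 := Real.log_le_sub_one_of_pos (x := ((B : ℝ) + 1 + 1) / (B + 1)) (by positivity)
        have h5 : ((B : ℝ) + 1 + 1) / (B + 1) - 1 = 1 / (B + 1) := by field_simp; ring
        linarith [ih.1]
      · have h3 : ((B : ℝ) + 1) / A = ((B : ℝ) / A) * (((B : ℝ) + 1) / B) := by field_simp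
        rw [h3, Real.log_mul (by positivity) (by positivity)]
        have h4 := Real.one_sub_inv_le_log_of_pos (x := ((B : ℝ) + 1) / B) (by positivity)
        have h5 : 1 - (((B : ℝ) + 1) / B)⁻¹ = 1 / (B + 1) := by field_simp; ring
        linarith [ih.2]
  refine ⟨?_, key.2⟩
  have hB' : (0 : ℝ) < B := lt_of_lt_of_le hA' (by exact_mod_cast hAB)
  have h1 : Real.log (((B : ℝ) + 1) / (A + 1)) = Real.log (B / A) +
      Real.log (((B : ℝ) + 1) / B) - Real.log (((A : ℝ) + 1) / A) := by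
    rw [Real.log_div (by positivity) (by positivity), Real.log_div (by positivity) (by positivity),
      Real.log_div (by positivity) (by positivity), Real.log_div (by positivity) (by positivity)]
    ring
  have h2 : 0 ≤ Real.log (((B : ℝ) + 1) / B) :=
    Real.log_nonneg (by rw [le_div_iff₀ hB']; linarith)
  have h3 : Real.log (((A : ℝ) + 1) / A) ≤ 1 / A := by
    have h4 := Real.log_le_sub_one_of_pos (x := ((A : ℝ) + 1) / A) (by positivity)
    have h5 : ((A : ℝ) + 1) / A - 1 = 1 / A := by field_simp; ring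
    linarith
  linarith [key.1]

/-- the density of the integers prime to `M`. -/
noncomputable def den (M : ℕ) : ℝ := (M.totient : ℝ) / M

lemma den_pos {M : ℕ} (hM : 0 < M) : 0 < den M := by
  unfold den
  have h1 : 0 < M.totient := Nat.totient_pos.2 hM
  have h2 : (0 : ℝ) < M.totient := by exact_mod_cast h1
  have h3 : (0 : ℝ) < M := by exact_mod_cast hM
  positivity

lemma den_le (M : ℕ) : den M ≤ 1 := by
  unfold den
  apply div_le_one_of_le₀
  · exact_mod_cast Nat.totient_le M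
  · positivity

/-- indicator of `(x, M) = 1`. -/
noncomputable def cop (M x : ℕ) : ℝ := if Nat.Coprime x M then 1 else 0

lemma cop_per (M x k : ℕ) : cop M (x + M * k) = cop M x := by
  unfold cop
  have : Nat.Coprime (x + M * k) M ↔ Nat.Coprime x M := by
    rw [Nat.coprime_add_mul_left_left]
  simp [this]

lemma cop_sum (M : ℕ) : ∑ x ∈ range M, cop M x = M.totient := by
  unfold cop
  rw [Finset.sum_ite, Finset.sum_const_zero, add_zero, Finset.sum_const, nsmul_eq_mul, mul_one,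
    Nat.totient_eq_card_coprime]
  congr 2
  ext x
  simp [Nat.coprime_comm]

lemma sum_Kp (M a b : ℕ) (f : ℕ → ℝ) :
    ∑ x ∈ Kp M a b, f x = ∑ x ∈ Ioc a b, cop M x * f x := by
  unfold Kp cop
  rw [Finset.sum_filter]
  apply Finset.sum_congr rfl
  intro x _
  split_ifs <;> simp

/-- sums of reciprocals of integers prime to `M`. -/
theorem cop_harm (M : ℕ) (hM : 0 < M) (A B : ℕ) (hA : 1 ≤ A) (hAB : A ≤ B) :
    |∑ x ∈ Ioc A B, cop M x * (1 / (x : ℝ)) - den M * Real.log ((B : ℝ) / A)| ≤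
      (2 * M + 1) / A := by
  have hA' : (0 : ℝ) < A := by exact_mod_cast hA
  have hM' : (0 : ℝ) < M := by exact_mod_cast hM
  have h1 := abel (E := ℝ) (fun x => cop M x - den M) M hM
    (by intro x; have := cop_per M x 1; rw [mul_one] at this; simp only [this])
    (by
      rw [Finset.sum_sub_distrib, cop_sum]
      simp only [Finset.sum_const, card_range, nsmul_eq_mul]
      unfold den
      field_simp
      ring)
    (by
      intro x
      have h2 := den_pos hM
      have h3 := den_le M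
      rw [Real.norm_eq_abs, abs_le]
      unfold cop
      split_ifs <;> constructor <;> linarith) A B
  have h2 := harm A B hA hAB
  have h3 : ∑ x ∈ Ioc A B, (1 / (x : ℝ)) • (cop M x - den M) =
      ∑ x ∈ Ioc A B, cop M x * (1 / (x : ℝ)) - den M * ∑ x ∈ Ioc A B, 1 / (x : ℝ) := by
    rw [Finset.mul_sum, ← Finset.sum_sub_distrib]
    apply Finset.sum_congr rfl
    intro x _
    simp only [smul_eq_mul]
    ring
  rw [h3, Real.norm_eq_abs] at h1
  have h4 : 2 * (M : ℝ) / ((A : ℝ) + 1) ≤ 2 * M / A := by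
    apply div_le_div_of_nonneg_left (by positivity) hA' (by linarith)
  have h5 : |den M * ∑ x ∈ Ioc A B, 1 / (x : ℝ) - den M * Real.log ((B : ℝ) / A)| ≤ 1 / A := by
    rw [← mul_sub, abs_mul, abs_of_pos (den_pos hM)]
    have h6 : |∑ x ∈ Ioc A B, 1 / (x : ℝ) - Real.log ((B : ℝ) / A)| ≤ 1 / A := by
      rw [abs_le]
      have : (0 : ℝ) ≤ 1 / A := by positivity
      constructor <;> linarith [h2.1, h2.2]
    calc den M * |∑ x ∈ Ioc A B, 1 / (x : ℝ) - Real.log ((B : ℝ) / A)| ≤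
          1 * (1 / A) := mul_le_mul (den_le M) h6 (abs_nonneg _) (by norm_num)
      _ = 1 / A := one_mul _
  calc _ ≤ |∑ x ∈ Ioc A B, cop M x * (1 / (x : ℝ)) - den M * ∑ x ∈ Ioc A B, 1 / (x : ℝ)| +
        |den M * ∑ x ∈ Ioc A B, 1 / (x : ℝ) - den M * Real.log ((B : ℝ) / A)| :=
        abs_sub_le _ _ _
    _ ≤ 2 * M / A + 1 / A := add_le_add (h1.trans h4) h5
    _ = (2 * M + 1) / A := by ring

/-- the sum of the slot. -/
theorem Zs_Kp (M R D : ℕ) (hM : 0 < M) (hR : 2 ≤ R) (hD : 1 ≤ D) :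
    |Zs (Kp M D (R * D)) - den M * Real.log R| ≤ (2 * M + 1) / D := by
  have hD' : (0 : ℝ) < D := by exact_mod_cast hD
  have h1 := cop_harm M hM D (R * D) hD (by nlinarith)
  unfold Zs
  rw [sum_Kp]
  have h2 : ((R * D : ℕ) : ℝ) / D = R := by push_cast; field_simp
  rwa [h2] at h1

/-- the constant. -/
noncomputable def cz (M R : ℕ) : ℝ := den M * Real.log R

lemma cz_pos {M R : ℕ} (hM : 0 < M) (hR : 2 ≤ R) : 0 < cz M R := by
  unfold cz
  have h1 := den_pos hM
  have h2 : 0 < Real.log R := Real.log_pos (by exact_mod_cast hR)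
  positivity

/-- for large `D` the sum of the slot is at least half of its limit. -/
theorem exists_D₀ (M R : ℕ) (hM : 0 < M) (hR : 2 ≤ R) : ∃ D₀ : ℕ, 1 ≤ D₀ ∧ ∀ D : ℕ, D₀ ≤ D →
    cz M R / 2 ≤ Zs (Kp M D (R * D)) := by
  have hc := cz_pos hM hR
  refine ⟨⌈(2 * M + 1) / (cz M R / 2)⌉₊ + 1, by omega, fun D hD => ?_⟩
  have hD1 : 1 ≤ D := by omega
  have hD' : (0 : ℝ) < D := by exact_mod_cast hD1
  have h1 := Zs_Kp M R D hM hR hD1
  have h2 : (2 * M + 1) / (cz M R / 2) ≤ (D : ℝ) := by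
    calc (2 * M + 1) / (cz M R / 2) ≤ (⌈(2 * M + 1) / (cz M R / 2)⌉₊ : ℝ) := Nat.le_ceil _
      _ ≤ D := by exact_mod_cast (by omega : ⌈(2 * M + 1) / (cz M R / 2)⌉₊ ≤ D)
  have h3 : (2 * (M : ℝ) + 1) / D ≤ cz M R / 2 := by
    rw [div_le_iff₀ (by positivity)] at h2 ⊢
    linarith
  rw [abs_le] at h1
  have h4 : cz M R = den M * Real.log R := rfl
  linarith [h1.1]

end Pool.Agent.T9h11.QD
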