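import Pool.Agent.T9h11.QD.Slot

/-!
# `LenX`, `DivX`
-/

set_option autoImplicit false

namespace Pool.Agent.T9h11.QD

open Finset Pool.Agent.T9h57.QD

lemma ind_and (p q : Prop) : ind (p ∧ q) = ind p * ind q := by
  unfold ind
  by_cases hp : p <;> by_cases hq : q <;> simp [hp, hq]

lemma ind_nonneg (p : Prop) : 0 ≤ ind p := by
  unfold ind; split_ifs <;> norm_num

lemma ind_le_one (p : Prop) : ind p ≤ 1 := by
  unfold ind; split_ifs <;> norm_num

lemma ind_congr {p q : Prop} (h : p ↔ q) : ind p = ind q := by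
  rw [propext h]

lemma cop_nonneg (M x : ℕ) : 0 ≤ cop M x := by
  unfold cop; split_ifs <;> norm_num

lemma cop_le_one (M x : ℕ) : cop M x ≤ 1 := by
  unfold cop; split_ifs <;> norm_num

section win

variable {E : Type*} [NormedAddCommGroup E] [NormedSpace ℝ E]

/-- sums over a window in the slot. -/
lemma sum_win (M D U : ℕ) (a b : ℝ) (F : ℕ → E) :
    ∑ x ∈ Kp M D U, (lw (Kp M D U) x * ind (a < (x : ℝ) ∧ (x : ℝ) ≤ b)) • F x =
      (Zs (Kp M D U))⁻¹ • ∑ x ∈ Ioc (max D ⌊a⌋₊) (min U ⌊b⌋₊),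
        (1 / (x : ℝ)) • (cop M x • F x) := by
  have h1 : ∑ x ∈ Kp M D U, (lw (Kp M D U) x * ind (a < (x : ℝ) ∧ (x : ℝ) ≤ b)) • F x =
      ∑ x ∈ Ioc D U, (cop M x * (lw (Kp M D U) x * ind (a < (x : ℝ) ∧ (x : ℝ) ≤ b))) • F x := by
    conv_lhs => rw [Kp]
    rw [Finset.sum_filter]
    apply Finset.sum_congr rfl
    intro x _
    unfold cop
    rw [← Kp]
    split_ifs <;> simp
  rw [h1, Finset.smul_sum]
  have h2 : Ioc (max D ⌊a⌋₊) (min U ⌊b⌋₊) =
      (Ioc D U).filter (fun x : ℕ => a < (x : ℝ) ∧ (x : ℝ) ≤ b) := by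
    ext x
    simp only [mem_Ioc, mem_filter]
    constructor
    · rintro ⟨h3, h4⟩
      have h5 : x ≠ 0 := by omega
      have h6 : ⌊a⌋₊ < x := lt_of_le_of_lt (le_max_right _ _) h3
      have h7 : x ≤ ⌊b⌋₊ := h4.trans (min_le_right _ _)
      refine ⟨⟨lt_of_le_of_lt (le_max_left _ _) h3, h4.trans (min_le_left _ _)⟩, ?_, ?_⟩
      · exact (Nat.floor_lt' h5).1 h6
      · exact (Nat.le_floor_iff' h5).1 h7
    · rintro ⟨⟨h3, h4⟩, h6, h7⟩
      have h5 : x ≠ 0 := by omega
      exact ⟨max_lt h3 ((Nat.floor_lt' h5).2 h6), le_min h4 ((Nat.le_floor_iff' h5).2 h7)⟩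
  rw [h2, Finset.sum_filter]
  apply Finset.sum_congr rfl
  intro x _
  unfold ind lw
  split_ifs with h3
  · rw [smul_smul, smul_smul]
    congr 1
    ring
  · simp

end win

lemma sum_win_real (M D U : ℕ) (a b : ℝ) (F : ℕ → ℝ) :
    ∑ x ∈ Kp M D U, lw (Kp M D U) x * ind (a < (x : ℝ) ∧ (x : ℝ) ≤ b) * F x =
      (Zs (Kp M D U))⁻¹ * ∑ x ∈ Ioc (max D ⌊a⌋₊) (min U ⌊b⌋₊),
        (1 / (x : ℝ)) * (cop M x * F x) := by
  have := sum_win (E := ℝ) M D U a b F
  simpa only [smul_eq_mul] using this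

lemma log_floor (D : ℕ) (hD : 1 ≤ D) (a b : ℝ) (ha : (D : ℝ) ≤ a) (hab : a ≤ b) :
    |Real.log ((⌊b⌋₊ : ℝ) / ⌊a⌋₊) - Real.log (b / a)| ≤ 1 / D := by
  have hD' : (0 : ℝ) < D := by exact_mod_cast hD
  have ha0 : 0 < a := lt_of_lt_of_le hD' ha
  have hb0 : 0 < b := lt_of_lt_of_le ha0 hab
  have key : ∀ t : ℝ, (D : ℝ) ≤ t → 0 ≤ Real.log t - Real.log (⌊t⌋₊ : ℝ) ∧
      Real.log t - Real.log (⌊t⌋₊ : ℝ) ≤ 1 / D := by
    intro t ht
    have ht0 : 0 < t := lt_of_lt_of_le hD' ht
    have h1 : D ≤ ⌊t⌋₊ := Nat.le_floor ht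
    have h2 : (D : ℝ) ≤ (⌊t⌋₊ : ℝ) := by exact_mod_cast h1
    have h3 : (0 : ℝ) < (⌊t⌋₊ : ℝ) := lt_of_lt_of_le hD' h2
    have h4 : (⌊t⌋₊ : ℝ) ≤ t := Nat.floor_le ht0.le
    have h5 : t < (⌊t⌋₊ : ℝ) + 1 := Nat.lt_floor_add_one t
    rw [← Real.log_div ht0.ne' h3.ne']
    constructor
    · apply Real.log_nonneg
      rw [le_div_iff₀ h3]; linarith
    · have h6 := Real.log_le_sub_one_of_pos (x := t / (⌊t⌋₊ : ℝ)) (by positivity)
      have h7 : t / (⌊t⌋₊ : ℝ) - 1 = (t - ⌊t⌋₊) / ⌊t⌋₊ := by field_simp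
      have h8 : (t - ⌊t⌋₊) / (⌊t⌋₊ : ℝ) ≤ 1 / D := by
        apply div_le_div₀ (by norm_num) (by linarith) hD' h2
      linarith
  have ha1 := key a ha
  have hb1 := key b (ha.trans hab)
  have hfa : (0 : ℝ) < (⌊a⌋₊ : ℝ) := by
    have : 0 < ⌊a⌋₊ := lt_of_lt_of_le (by omega) (Nat.le_floor ha)
    exact_mod_cast this
  have hfb : (0 : ℝ) < (⌊b⌋₊ : ℝ) := by
    have : 0 < ⌊b⌋₊ := lt_of_lt_of_le (by omega) (Nat.le_floor (ha.trans hab))
    exact_mod_cast this
  rw [Real.log_div hb0.ne' ha0.ne', Real.log_div hfb.ne' hfa.ne', abs_le]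
  constructor <;> linarith [ha1.1, ha1.2, hb1.1, hb1.2]

/-- PIECE (e). -/
theorem lenX : LenX := by
  intro M R hM hR
  obtain ⟨D₀, hD₀1, hD₀⟩ := exists_D₀ M R hM hR
  have hc := cz_pos hM hR
  have hlR : 0 < Real.log R := Real.log_pos (by exact_mod_cast hR)
  refine ⟨2 * (4 * M + 3) / cz M R, D₀, ?_⟩
  rintro D hD S rfl a b ha hab hb
  have hD1 : 1 ≤ D := by omega
  have hD' : (0 : ℝ) < D := by exact_mod_cast hD1
  have ha0 : 0 < a := lt_of_lt_of_le hD' ha
  have hb0 : 0 < b := lt_of_lt_of_le ha0 hab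
  set Z := Zs (Kp M D (R * D)) with hZ
  have hZ1 := hD₀ D hD
  rw [← hZ] at hZ1
  have hZ0 : 0 < Z := by linarith
  have hZ2 := Zs_Kp M R D hM hR hD1
  rw [← hZ] at hZ2
  have h1 : ∑ x ∈ Kp M D (R * D), lw (Kp M D (R * D)) x * ind (a < (x : ℝ) ∧ (x : ℝ) ≤ b) =
      Z⁻¹ * ∑ x ∈ Ioc ⌊a⌋₊ ⌊b⌋₊, cop M x * (1 / (x : ℝ)) := by
    have h2 := sum_win_real M D (R * D) a b (fun _ => 1)
    simp only [mul_one] at h2
    rw [h2]
    have h3 : max D ⌊a⌋₊ = ⌊a⌋₊ := max_eq_right (Nat.le_floor ha)
    have h4 : min (R * D) ⌊b⌋₊ = ⌊b⌋₊ := min_eq_right (Nat.floor_le_of_le (by exact_mod_cast hb))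
    rw [h3, h4]
    congr 1
    exact Finset.sum_congr rfl fun x _ => mul_comm _ _
  rw [h1]
  have h5 := cop_harm M hM ⌊a⌋₊ ⌊b⌋₊ (le_trans hD1 (Nat.le_floor ha)) (Nat.floor_mono hab)
  have h6 := log_floor D hD1 a b ha hab
  set N := ∑ x ∈ Ioc ⌊a⌋₊ ⌊b⌋₊, cop M x * (1 / (x : ℝ)) with hN
  set lam := Real.log (b / a) with hlam
  have hlam0 : 0 ≤ lam := Real.log_nonneg (by rw [le_div_iff₀ ha0]; linarith)
  have hlam1 : lam ≤ Real.log R := by
    apply Real.log_le_log (by positivity)
    rw [div_le_iff₀ ha0]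
    have : (0 : ℝ) ≤ R := by positivity
    nlinarith
  have hM' : (0 : ℝ) < M := by exact_mod_cast hM
  have h7 : (2 * (M : ℝ) + 1) / (⌊a⌋₊ : ℝ) ≤ (2 * M + 1) / D := by
    apply div_le_div_of_nonneg_left (by positivity) hD'
    exact_mod_cast Nat.le_floor ha
  have hN1 : |N - den M * lam| ≤ (2 * M + 2) / D := by
    calc |N - den M * lam| ≤ |N - den M * Real.log ((⌊b⌋₊ : ℝ) / ⌊a⌋₊)| +
          |den M * Real.log ((⌊b⌋₊ : ℝ) / ⌊a⌋₊) - den M * lam| := abs_sub_le _ _ _
      _ ≤ (2 * M + 1) / D + 1 / D := by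
        apply add_le_add (h5.trans h7)
        rw [← mul_sub, abs_mul, abs_of_pos (den_pos hM)]
        calc _ ≤ 1 * (1 / (D : ℝ)) := mul_le_mul (den_le M) h6 (abs_nonneg _) (by norm_num)
          _ = 1 / D := one_mul _
      _ = (2 * M + 2) / D := by ring
  have h8 : Z⁻¹ * N - lam / Real.log R =
      ((N - den M * lam) * Real.log R - lam * (Z - den M * Real.log R)) / (Z * Real.log R) := by
    field_simp
    ring
  rw [h8, abs_div, abs_of_pos (by positivity : 0 < Z * Real.log R), div_le_div_iff₀ (by positivity) hD']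
  have h9 : |(N - den M * lam) * Real.log R - lam * (Z - den M * Real.log R)| ≤
      Real.log R * ((4 * M + 3) / D) := by
    calc _ ≤ |(N - den M * lam) * Real.log R| + |lam * (Z - den M * Real.log R)| := abs_sub _ _
      _ = |N - den M * lam| * Real.log R + lam * |Z - den M * Real.log R| := by
        rw [abs_mul, abs_mul, abs_of_pos hlR, abs_of_nonneg hlam0]
      _ ≤ (2 * M + 2) / D * Real.log R + Real.log R * ((2 * M + 1) / D) := by
        apply add_le_add (mul_le_mul_of_nonneg_right hN1 hlR.le)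
        exact mul_le_mul hlam1 hZ2 (abs_nonneg _) hlR.le
      _ = _ := by ring
  calc _ ≤ Real.log R * ((4 * M + 3) / D) * D := mul_le_mul_of_nonneg_right h9 hD'.le
    _ = Real.log R * (4 * M + 3) := by field_simp
    _ = (2 * (4 * M + 3) / cz M R) * ((cz M R / 2) * Real.log R) := by field_simp
    _ ≤ (2 * (4 * M + 3) / cz M R) * (Z * Real.log R) := by
      apply mul_le_mul_of_nonneg_left _ (by positivity)
      exact mul_le_mul_of_nonneg_right hZ1 hlR.le

/-- PIECE (d). -/
theorem divX : DivX := by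
  intro M R hM hR
  obtain ⟨D₀, hD₀1, hD₀⟩ := exists_D₀ M R hM hR
  have hc := cz_pos hM hR
  have hlR : 0 < Real.log R := Real.log_pos (by exact_mod_cast hR)
  have hM' : (0 : ℝ) < M := by exact_mod_cast hM
  set C : ℕ := ⌈2 * (R : ℝ) / cz M R⌉₊ + ⌈(6 * (M : ℝ) + 4) / cz M R⌉₊ + 1 with hC
  have hC1 : 2 * (R : ℝ) / cz M R ≤ C := by
    have := Nat.le_ceil (2 * (R : ℝ) / cz M R)
    have h2 : (0 : ℝ) ≤ (⌈(6 * (M : ℝ) + 4) / cz M R⌉₊ : ℝ) := by positivity
    rw [hC]; push_cast; linarith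
  have hC2 : (6 * (M : ℝ) + 4) / cz M R ≤ C := by
    have := Nat.le_ceil ((6 * (M : ℝ) + 4) / cz M R)
    have h2 : (0 : ℝ) ≤ (⌈2 * (R : ℝ) / cz M R⌉₊ : ℝ) := by positivity
    rw [hC]; push_cast; linarith
  have hC0 : 1 ≤ C := by omega
  have hC0' : (0 : ℝ) < C := by exact_mod_cast hC0
  refine ⟨C, D₀, ?_⟩
  rintro D hD S rfl
  have hD1 : 1 ≤ D := by omega
  have hD' : (0 : ℝ) < D := by exact_mod_cast hD1
  set Z := Zs (Kp M D (R * D)) with hZ
  have hZ1 := hD₀ D hD
  rw [← hZ] at hZ1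
  have hZ0 : 0 < Z := by linarith
  have hZ2 := Zs_Kp M R D hM hR hD1
  rw [← hZ] at hZ2
  refine ⟨?_, fun g hg => ⟨?_, fun hgD => ?_⟩⟩
  · by_contra hne
    rw [Finset.not_nonempty_iff_eq_empty] at hne
    rw [hZ, hne] at hZ0
    simp [Zs] at hZ0
  · have hg' : (0 : ℝ) < g := by exact_mod_cast hg
    have h1 : ∑ x ∈ Kp M D (R * D), lw (Kp M D (R * D)) x * ind (g ∣ x) =
        Z⁻¹ * ∑ x ∈ Kp M D (R * D), 1 / (x : ℝ) * ind (g ∣ x) := by
      rw [Finset.mul_sum]
      apply Finset.sum_congr rfl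
      intro x _
      unfold lw
      ring
    have h2 : ∑ x ∈ Kp M D (R * D), 1 / (x : ℝ) * ind (g ∣ x) ≤ R / g := by
      calc ∑ x ∈ Kp M D (R * D), 1 / (x : ℝ) * ind (g ∣ x)
          ≤ ∑ x ∈ Ioc D (R * D), 1 / (x : ℝ) * ind (g ∣ x) := by
            apply Finset.sum_le_sum_of_subset_of_nonneg (Finset.filter_subset _ _)
            intro x _ _
            exact mul_nonneg (by positivity) (ind_nonneg _)
        _ ≤ ∑ x ∈ Ioc D (R * D), 1 / (D : ℝ) * ind (g ∣ x) := by
            apply Finset.sum_le_sum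
            intro x hx
            rw [mem_Ioc] at hx
            apply mul_le_mul_of_nonneg_right _ (ind_nonneg _)
            apply one_div_le_one_div_of_le hD'
            exact_mod_cast hx.1.le
        _ ≤ ∑ x ∈ Ioc 0 (R * D), 1 / (D : ℝ) * ind (g ∣ x) := by
            apply Finset.sum_le_sum_of_subset_of_nonneg
            · intro x hx
              rw [mem_Ioc] at hx ⊢
              omega
            · intro x _ _
              exact mul_nonneg (by positivity) (ind_nonneg _)
        _ = 1 / (D : ℝ) * ((R * D / g : ℕ) : ℝ) := by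
            rw [← Finset.mul_sum]
            congr 1
            rw [← Nat.Ioc_filter_dvd_card_eq_div (R * D) g]
            unfold ind
            rw [Finset.card_filter]
            push_cast
            apply Finset.sum_congr rfl
            intro x _
            split_ifs <;> rfl
        _ ≤ 1 / (D : ℝ) * (((R * D : ℕ) : ℝ) / g) := by
            apply mul_le_mul_of_nonneg_left Nat.cast_div_le (by positivity)
        _ = R / g := by push_cast; field_simp
    rw [h1]
    calc Z⁻¹ * ∑ x ∈ Kp M D (R * D), 1 / (x : ℝ) * ind (g ∣ x) ≤ Z⁻¹ * (R / g) :=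
          mul_le_mul_of_nonneg_left h2 (by positivity)
      _ ≤ (cz M R / 2)⁻¹ * (R / g) := by
          apply mul_le_mul_of_nonneg_right _ (by positivity)
          exact inv_anti₀ (by positivity) hZ1
      _ = (2 * (R : ℝ) / cz M R) / g := by field_simp
      _ ≤ C / g := by
          apply div_le_div_of_nonneg_right hC1 hg'.le
  · have hg' : (0 : ℝ) < g := by exact_mod_cast hg
    have h1 : ∑ x ∈ Kp M D (R * D), lw (Kp M D (R * D)) x * ind (g ∣ x) =
        Z⁻¹ * ∑ x ∈ Ioc D (R * D), cop M x * (1 / (x : ℝ) * ind (g ∣ x)) := by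
      rw [← sum_Kp, Finset.mul_sum]
      apply Finset.sum_congr rfl
      intro x _
      unfold lw
      ring
    rw [h1]
    by_cases hgM : Nat.Coprime g M
    · -- reindex x = g y
      have h2 : ∑ x ∈ Ioc D (R * D), cop M x * (1 / (x : ℝ) * ind (g ∣ x)) =
          1 / (g : ℝ) * ∑ y ∈ Ioc (D / g) (R * D / g), cop M y * (1 / (y : ℝ)) := by
        rw [Finset.mul_sum]
        have h3 : ∑ x ∈ Ioc D (R * D), cop M x * (1 / (x : ℝ) * ind (g ∣ x)) =
            ∑ x ∈ (Ioc D (R * D)).filter (fun x => g ∣ x), cop M x * (1 / (x : ℝ)) := by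
          rw [Finset.sum_filter]
          apply Finset.sum_congr rfl
          intro x _
          unfold ind
          split_ifs <;> simp
        rw [h3]
        symm
        apply Finset.sum_bij (fun y _ => g * y)
        · intro y hy
          rw [mem_Ioc] at hy
          rw [mem_filter, mem_Ioc]
          refine ⟨⟨?_, ?_⟩, dvd_mul_right g y⟩
          · have := (Nat.div_lt_iff_lt_mul hg).1 hy.1
            rwa [Nat.mul_comm] at this
          · have := (Nat.le_div_iff_mul_le hg).1 hy.2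
            rwa [Nat.mul_comm] at this
        · intro y _ y' _ h
          exact Nat.eq_of_mul_eq_mul_left hg h
        · intro x hx
          rw [mem_filter, mem_Ioc] at hx
          obtain ⟨⟨h4, h5⟩, y, rfl⟩ := hx
          refine ⟨y, ?_, rfl⟩
          rw [mem_Ioc]
          constructor
          · rw [Nat.div_lt_iff_lt_mul hg, Nat.mul_comm]; exact h4
          · rw [Nat.le_div_iff_mul_le hg, Nat.mul_comm]; exact h5
        · intro y hy
          have h6 : cop M (g * y) = cop M y := by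
            unfold cop
            have : Nat.Coprime (g * y) M ↔ Nat.Coprime y M := by
              rw [Nat.coprime_mul_iff_left]
              exact ⟨fun h => h.2, fun h => ⟨hgM, h⟩⟩
            simp [this]
          rw [h6]
          push_cast
          by_cases hy0 : (y : ℝ) = 0
          · simp [hy0]
          · field_simp
      rw [h2]
      have hA : C ≤ D / g := by
        rw [Nat.le_div_iff_mul_le hg]
        exact hgD
      have hA1 : 1 ≤ D / g := hC0.trans hA
      have hAB : D / g ≤ R * D / g := Nat.div_le_div_right (by nlinarith)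
      have h7 := cop_harm M hM (D / g) (R * D / g) hA1 hAB
      set A := D / g with hAdef
      have hA' : (0 : ℝ) < A := by exact_mod_cast hA1
      have hCA : (C : ℝ) ≤ A := by exact_mod_cast hA
      have h8 : ((R * D / g : ℕ) : ℝ) ≤ R * (A + 1) := by
        have h9 : R * D / g ≤ R * (A + 1) := by
          have h10 : D < g * (A + 1) := by
            have := Nat.lt_mul_div_succ D hg
            simpa [hAdef, Nat.succ_eq_add_one] using this
          rw [Nat.div_le_iff_le_mul_add_pred hg]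
          have : R * D ≤ R * (g * (A + 1)) := Nat.mul_le_mul_left _ h10.le
          calc R * D ≤ R * (g * (A + 1)) := this
            _ = g * (R * (A + 1)) := by ring
            _ ≤ _ := by omega
        exact_mod_cast h9
      have h11 : Real.log (((R * D / g : ℕ) : ℝ) / A) ≤ Real.log R + 1 / A := by
        have hpos : (0 : ℝ) < ((R * D / g : ℕ) : ℝ) := by
          exact_mod_cast lt_of_lt_of_le hA1 hAB
        have hR' : (0 : ℝ) < R := by
          have : 0 < R := by omega
          exact_mod_cast this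
        calc Real.log (((R * D / g : ℕ) : ℝ) / A) ≤ Real.log (R * ((A + 1) / A)) := by
              apply Real.log_le_log (by positivity)
              rw [div_le_iff₀ hA']
              calc ((R * D / g : ℕ) : ℝ) ≤ R * (A + 1) := h8
                _ = _ := by field_simp
          _ = Real.log R + Real.log ((A + 1) / A) :=
              Real.log_mul (by positivity) (by positivity)
          _ ≤ Real.log R + 1 / A := by
              have h4 := Real.log_le_sub_one_of_pos (x := ((A : ℝ) + 1) / A) (by positivity)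
              have h5 : ((A : ℝ) + 1) / A - 1 = 1 / A := by field_simp; ring
              linarith
      set Y := ∑ y ∈ Ioc A (R * D / g), cop M y * (1 / (y : ℝ)) with hY
      have h12 : Y ≤ cz M R + (2 * M + 2) / C := by
        rw [abs_le] at h7
        have h13 : den M * Real.log (((R * D / g : ℕ) : ℝ) / A) ≤ cz M R + 1 / A := by
          calc _ ≤ den M * (Real.log R + 1 / A) :=
                mul_le_mul_of_nonneg_left h11 (den_pos hM).le
            _ = cz M R + den M * (1 / A) := by unfold cz; ring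
            _ ≤ cz M R + 1 * (1 / A) := by
                have := mul_le_mul_of_nonneg_right (den_le M) (by positivity : (0 : ℝ) ≤ 1 / A)
                linarith
            _ = _ := by ring
        have h14 : (2 * (M : ℝ) + 2) / A ≤ (2 * M + 2) / C :=
          div_le_div_of_nonneg_left (by positivity) hC0' hCA
        have h15 : (2 * (M : ℝ) + 2) / A = (2 * M + 1) / A + 1 / A := by ring
        linarith [h7.2]
      have h16 : cz M R - (2 * M + 1) / C ≤ Z := by
        rw [abs_le] at hZ2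
        have hCD : (C : ℝ) ≤ D := by
          have : C ≤ D := le_trans hA (Nat.div_le_self _ _)
          exact_mod_cast this
        have h17 : (2 * (M : ℝ) + 1) / D ≤ (2 * M + 1) / C :=
          div_le_div_of_nonneg_left (by positivity) hC0' hCD
        have h18 : cz M R = den M * Real.log R := rfl
        linarith [hZ2.1]
      have h19 : (6 * (M : ℝ) + 4) / C ≤ cz M R := by
        rw [div_le_iff₀ hc] at hC2
        rw [div_le_iff₀ hC0']
        linarith
      have h20 : Y ≤ 2 * Z := by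
        have h21 : (6 * (M : ℝ) + 4) / C = (2 * M + 2) / C + 2 * ((2 * M + 1) / C) := by ring
        linarith
      calc Z⁻¹ * (1 / (g : ℝ) * Y) ≤ Z⁻¹ * (1 / (g : ℝ) * (2 * Z)) := by
            apply mul_le_mul_of_nonneg_left _ (by positivity)
            exact mul_le_mul_of_nonneg_left h20 (by positivity)
        _ = 2 / g := by field_simp
    · have h2 : ∑ x ∈ Ioc D (R * D), cop M x * (1 / (x : ℝ) * ind (g ∣ x)) = 0 := by
        apply Finset.sum_eq_zero
        intro x _
        unfold cop ind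
        split_ifs with h3 h4
        · exact absurd (Nat.Coprime.coprime_dvd_left h4 h3) hgM
        · simp
        · simp
        · simp
      rw [h2, mul_zero]
      positivity

end Pool.Agent.T9h11.QD
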