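import Pool.Agent.T9h11.QD.Slot2

/-!
# `EquiX`, `TwistX`, `CCount`
-/

set_option autoImplicit false

namespace Pool.Agent.T9h11.QD

open Finset Pool.Agent.T9h57.QD

lemma cop_sum_mul (M k : ℕ) : ∑ x ∈ range (M * k), cop M x = k * (M.totient : ℝ) := by
  induction k with
  | zero => simp
  | succ k ih =>
    rw [Nat.mul_succ, Finset.sum_range_add, ih]
    have h2 : ∑ x ∈ range M, cop M (M * k + x) = M.totient := by
      rw [← cop_sum M]
      apply Finset.sum_congr rfl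
      intro x _
      rw [Nat.add_comm, cop_per]
    rw [h2]
    push_cast
    ring

lemma cop_of_primes {M q : ℕ} (hq : ∀ p, p.Prime → p ∣ q → p ∣ M) {x : ℕ} (h : Nat.Coprime x M) :
    Nat.Coprime x q := by
  by_contra hc
  obtain ⟨p, hp, h1, h2⟩ := Nat.Prime.not_coprime_iff_dvd.1 hc
  exact (Nat.Prime.not_coprime_iff_dvd.2 ⟨p, hp, h1, hq p hp h2⟩) h

/-- the number of residues mod `M q₀`, prime to `M`, in a given unit class mod `q₀`. -/
lemma class_count (M q₀ : ℕ) (hM : 0 < M) (hq : 0 < q₀) (hp : ∀ p, p.Prime → p ∣ q₀ → p ∣ M)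
    (ρ : ℕ) (hρ : Nat.Coprime ρ q₀) :
    ∑ x ∈ range (M * q₀), cop M x * ind (x ≡ ρ [MOD q₀]) =
      (q₀ : ℝ) * M.totient / q₀.totient := by
  classical
  set T := M * q₀ with hT
  have hT0 : 0 < T := Nat.mul_pos hM hq
  haveI : NeZero T := ⟨hT0.ne'⟩
  haveI : NeZero q₀ := ⟨hq.ne'⟩
  have hcop : ∀ x, Nat.Coprime x M ↔ Nat.Coprime x T := by
    intro x
    rw [hT, Nat.coprime_mul_iff_right]
    exact ⟨fun h => ⟨h, cop_of_primes hp h⟩, fun h => h.1⟩
  have hd : q₀ ∣ T := Dvd.intro_left M rfl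
  -- fibres
  have hsurj : Function.Surjective (ZMod.unitsMap hd) := ZMod.unitsMap_surjective hd
  set v : (ZMod q₀)ˣ := ZMod.unitOfCoprime ρ hρ with hv
  set N : ℕ := (univ.filter (fun u : (ZMod T)ˣ => ZMod.unitsMap hd u = v)).card with hN
  have hfib : ∀ w : (ZMod q₀)ˣ,
      (univ.filter (fun u : (ZMod T)ˣ => ZMod.unitsMap hd u = w)).card = N := by
    intro w
    exact MonoidHom.card_fiber_eq_of_mem_range (ZMod.unitsMap hd) (hsurj w) (hsurj v)
  have htot : (T.totient : ℝ) = q₀.totient * N := by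
    have h1 := Finset.card_eq_sum_card_fiberwise (s := (univ : Finset (ZMod T)ˣ))
      (t := (univ : Finset (ZMod q₀)ˣ)) (f := ZMod.unitsMap hd) (fun _ _ => Finset.mem_univ _)
    rw [Finset.sum_congr rfl (fun w _ => hfib w), Finset.sum_const, Finset.card_univ,
      Finset.card_univ, ZMod.card_units_eq_totient, ZMod.card_units_eq_totient, smul_eq_mul] at h1
    exact_mod_cast h1
  have htot2 : (T.totient : ℝ) = q₀ * M.totient := by
    rw [← cop_sum T, ← cop_sum_mul M q₀, ← hT]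
    apply Finset.sum_congr rfl
    intro x _
    unfold cop
    simp only [hcop x]
  have hsum : ∑ x ∈ range T, cop M x * ind (x ≡ ρ [MOD q₀]) = N := by
    have h1 : ∑ x ∈ range T, cop M x * ind (x ≡ ρ [MOD q₀]) =
        (((range T).filter (fun x => Nat.Coprime x T ∧ x ≡ ρ [MOD q₀])).card : ℝ) := by
      rw [Finset.card_filter]
      push_cast
      apply Finset.sum_congr rfl
      intro x _
      unfold cop ind
      simp only [hcop x]
      by_cases h2 : Nat.Coprime x T <;> by_cases h3 : x ≡ ρ [MOD q₀] <;> simp [h2, h3]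
    rw [h1, hN]
    congr 1
    symm
    apply Finset.card_bij (fun (u : (ZMod T)ˣ) _ => ((u : ZMod T)).val)
    · intro u hu
      rw [mem_filter] at hu
      rw [mem_filter, mem_range]
      refine ⟨ZMod.val_lt _, ZMod.val_coe_unit_coprime u, ?_⟩
      rw [← ZMod.natCast_eq_natCast_iff]
      have h2 : ((ZMod.unitsMap hd u : (ZMod q₀)ˣ) : ZMod q₀) = (v : ZMod q₀) := by rw [hu.2]
      rw [hv, ZMod.coe_unitOfCoprime] at h2
      rw [← h2, ZMod.unitsMap_val, ZMod.natCast_val]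
    · intro u _ u' _ h
      exact Units.ext (ZMod.val_injective T h)
    · intro x hx
      rw [mem_filter, mem_range] at hx
      refine ⟨ZMod.unitOfCoprime x hx.2.1, ?_, ?_⟩
      · rw [mem_filter]
        refine ⟨mem_univ _, ?_⟩
        apply Units.ext
        rw [ZMod.unitsMap_val, ZMod.coe_unitOfCoprime, hv, ZMod.coe_unitOfCoprime,
          ZMod.cast_natCast hd]
        exact (ZMod.natCast_eq_natCast_iff _ _ _).2 hx.2.2
      · rw [ZMod.coe_unitOfCoprime, ZMod.val_natCast_of_lt hx.1]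
  rw [hsum]
  have hq' : (0 : ℝ) < q₀.totient := by exact_mod_cast Nat.totient_pos.2 hq
  rw [eq_div_iff hq'.ne', ← htot2, htot]
  ring

lemma mod_per (q₀ M ρ x : ℕ) : (x + M * q₀ ≡ ρ [MOD q₀]) ↔ (x ≡ ρ [MOD q₀]) := by
  simp [Nat.ModEq, Nat.add_mul_mod_self_right]

lemma inv_Z_le {c Z : ℝ} (hc : 0 < c) (h : c / 2 ≤ Z) : Z⁻¹ ≤ 2 / c := by
  have : 0 < c / 2 := by positivity
  calc Z⁻¹ ≤ (c / 2)⁻¹ := inv_anti₀ this h
    _ = 2 / c := by rw [inv_div]

lemma win_bound {T D : ℕ} (hD : 1 ≤ D) (m : ℕ) :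
    2 * (T : ℝ) / (((max D m : ℕ) : ℝ) + 1) ≤ 2 * T / D := by
  have hD' : (0 : ℝ) < D := by exact_mod_cast hD
  apply div_le_div_of_nonneg_left (by positivity) hD'
  have : (D : ℝ) ≤ ((max D m : ℕ) : ℝ) := by exact_mod_cast le_max_left _ _
  linarith

/-- PIECE (f). -/
theorem equiX : EquiX := by
  intro M q₀ R hM hq hp hR
  obtain ⟨D₀, hD₀1, hD₀⟩ := exists_D₀ M R hM hR
  have hc := cz_pos hM hR
  refine ⟨2 / cz M R * (2 * (M * q₀ : ℕ)), D₀, ?_⟩
  rintro D hD S rfl ρ a b hρ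
  have hD1 : 1 ≤ D := by omega
  have hD' : (0 : ℝ) < D := by exact_mod_cast hD1
  set Z := Zs (Kp M D (R * D)) with hZ
  have hZ1 := hD₀ D hD
  rw [← hZ] at hZ1
  have hZ0 : 0 < Z := by linarith
  have hφ : (0 : ℝ) < q₀.totient := by exact_mod_cast Nat.totient_pos.2 hq
  have hφ1 : (1 : ℝ) ≤ q₀.totient := by exact_mod_cast Nat.totient_pos.2 hq
  have h1 : ∑ x ∈ Kp M D (R * D), lw (Kp M D (R * D)) x *
        ind (a < (x : ℝ) ∧ (x : ℝ) ≤ b ∧ x ≡ ρ [MOD q₀]) -
      (∑ x ∈ Kp M D (R * D), lw (Kp M D (R * D)) x * ind (a < (x : ℝ) ∧ (x : ℝ) ≤ b)) /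
        (q₀.totient : ℝ) =
      Z⁻¹ * ∑ x ∈ Ioc (max D ⌊a⌋₊) (min (R * D) ⌊b⌋₊),
        (1 / (x : ℝ)) * (cop M x * (ind (x ≡ ρ [MOD q₀]) - 1 / q₀.totient)) := by
    rw [hZ, ← sum_win_real, Finset.sum_div, ← Finset.sum_sub_distrib]
    apply Finset.sum_congr rfl
    intro x _
    have : ind (a < (x : ℝ) ∧ (x : ℝ) ≤ b ∧ x ≡ ρ [MOD q₀]) =
        ind (a < (x : ℝ) ∧ (x : ℝ) ≤ b) * ind (x ≡ ρ [MOD q₀]) := by
      rw [← ind_and]
      exact ind_congr (by tauto)
    rw [this]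
    ring
  rw [h1]
  have h2 := abel (E := ℝ) (fun x => cop M x * (ind (x ≡ ρ [MOD q₀]) - 1 / q₀.totient))
    (M * q₀) (Nat.mul_pos hM hq)
    (by intro x; simp only [cop_per, mod_per])
    (by
      simp only [mul_sub]
      rw [Finset.sum_sub_distrib, class_count M q₀ hM hq hp ρ hρ, ← Finset.sum_mul, cop_sum_mul]
      ring)
    (by
      intro x
      rw [Real.norm_eq_abs, abs_mul, abs_of_nonneg (cop_nonneg M x)]
      have h3 : |ind (x ≡ ρ [MOD q₀]) - 1 / (q₀.totient : ℝ)| ≤ 1 := by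
        have h4 := ind_nonneg (x ≡ ρ [MOD q₀])
        have h5 := ind_le_one (x ≡ ρ [MOD q₀])
        have h6 : 0 ≤ 1 / (q₀.totient : ℝ) := by positivity
        have h7 : 1 / (q₀.totient : ℝ) ≤ 1 := by
          rw [div_le_one hφ]; exact hφ1
        rw [abs_le]
        constructor <;> linarith
      calc cop M x * |ind (x ≡ ρ [MOD q₀]) - 1 / (q₀.totient : ℝ)| ≤ 1 * 1 :=
            mul_le_mul (cop_le_one M x) h3 (abs_nonneg _) (by norm_num)
        _ = 1 := one_mul _) (max D ⌊a⌋₊) (min (R * D) ⌊b⌋₊)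
  simp only [smul_eq_mul] at h2
  rw [Real.norm_eq_abs] at h2
  rw [abs_mul, abs_of_pos (by positivity : 0 < Z⁻¹)]
  calc _ ≤ (2 / cz M R) * (2 * ((M * q₀ : ℕ) : ℝ) / D) := by
        apply mul_le_mul (inv_Z_le hc hZ1) (h2.trans (win_bound hD1 _)) (abs_nonneg _)
          (by positivity)
    _ = _ := by ring

/-- PIECE (g). -/
theorem twistX : TwistX := by
  intro M q₀ R hM hq hp hR
  obtain ⟨D₀, hD₀1, hD₀⟩ := exists_D₀ M R hM hR
  have hc := cz_pos hM hR
  refine ⟨2 / cz M R * (2 * (M * q₀ : ℕ)), D₀, by positivity, ?_⟩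
  rintro D hD S rfl ρ a b h j hh hhM hjh
  have hD1 : 1 ≤ D := by omega
  have hD' : (0 : ℝ) < D := by exact_mod_cast hD1
  have hh0 : (h : ℂ) ≠ 0 := by
    have : h ≠ 0 := by omega
    exact_mod_cast this
  set Z := Zs (Kp M D (R * D)) with hZ
  have hZ1 := hD₀ D hD
  rw [← hZ] at hZ1
  have hZ0 : 0 < Z := by linarith
  set e : ℕ → ℂ := fun x =>
    Complex.exp (2 * Real.pi * Complex.I * ((j : ℂ) * (x : ℂ) / (h : ℂ))) with he
  have hadd : ∀ x s : ℕ, e (x + s) = e x * e s := by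
    intro x s
    simp only [he]
    rw [← Complex.exp_add]
    congr 1
    push_cast
    field_simp
  have hnorm : ∀ x, ‖e x‖ = 1 := by
    intro x
    simp only [he]
    have : 2 * (Real.pi : ℂ) * Complex.I * ((j : ℂ) * (x : ℂ) / (h : ℂ)) =
        ((2 * Real.pi * (j * x / h) : ℝ) : ℂ) * Complex.I := by push_cast; ring
    rw [this, Complex.norm_exp_ofReal_mul_I]
  have hone : e (M * q₀ * h) = 1 := by
    simp only [he]
    rw [Complex.exp_eq_one_iff]
    refine ⟨(j * (M * q₀) : ℕ), ?_⟩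
    push_cast
    field_simp
  have hne : e (M * q₀) ≠ 1 := by
    simp only [he]
    intro h1
    rw [Complex.exp_eq_one_iff] at h1
    obtain ⟨n, hn⟩ := h1
    have hpi : (2 * (Real.pi : ℂ) * Complex.I) ≠ 0 := by
      simp [Real.pi_ne_zero]
    have h2 : (j : ℂ) * ((M * q₀ : ℕ) : ℂ) / h = n := by
      apply mul_left_cancel₀ hpi
      rw [hn]
      ring
    rw [div_eq_iff hh0] at h2
    have h3 : ((j * (M * q₀) : ℕ) : ℤ) = n * h := by
      have h4 : ((((j * (M * q₀) : ℕ) : ℤ)) : ℂ) = ((n * (h : ℤ) : ℤ) : ℂ) := by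
        push_cast
        rw [← h2]
        push_cast
        ring
      exact_mod_cast h4
    have h5 : (h : ℤ) ∣ ((j * (M * q₀) : ℕ) : ℤ) := ⟨n, by rw [h3]; ring⟩
    have h6 : h ∣ j * (M * q₀) := by exact_mod_cast h5
    have h7 : Nat.Coprime h (j * (M * q₀)) :=
      Nat.Coprime.mul_right hjh.symm (Nat.Coprime.mul_right hhM (cop_of_primes hp hhM))
    have h8 : h = 1 := Nat.Coprime.eq_one_of_dvd h7 h6
    omega
  have h1 : ∑ x ∈ Kp M D (R * D), ((lw (Kp M D (R * D)) x *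
        ind (a < (x : ℝ) ∧ (x : ℝ) ≤ b ∧ x ≡ ρ [MOD q₀]) : ℝ) : ℂ) *
        Complex.exp (2 * Real.pi * Complex.I * ((j : ℂ) * (x : ℂ) / (h : ℂ))) =
      Z⁻¹ • ∑ x ∈ Ioc (max D ⌊a⌋₊) (min (R * D) ⌊b⌋₊),
        (1 / (x : ℝ)) • (cop M x • (ind (x ≡ ρ [MOD q₀]) • e x)) := by
    rw [hZ, ← sum_win]
    apply Finset.sum_congr rfl
    intro x _
    have : ind (a < (x : ℝ) ∧ (x : ℝ) ≤ b ∧ x ≡ ρ [MOD q₀]) =
        ind (a < (x : ℝ) ∧ (x : ℝ) ≤ b) * ind (x ≡ ρ [MOD q₀]) := by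
      rw [← ind_and]
      exact ind_congr (by tauto)
    rw [this]
    simp only [Complex.real_smul, he]
    push_cast
    ring
  rw [h1]
  have hsub : ∀ x s : ℕ, e s = e s := fun _ _ => rfl
  have hzero : ∑ x ∈ range (M * q₀ * h), cop M x • (ind (x ≡ ρ [MOD q₀]) • e x) = 0 := by
    have hper : ∀ x, cop M (x + M * q₀ * h) • (ind (x + M * q₀ * h ≡ ρ [MOD q₀]) •
        e (x + M * q₀ * h)) = cop M x • (ind (x ≡ ρ [MOD q₀]) • e x) := by
      intro x
      have e1 : x + M * q₀ * h = x + M * (q₀ * h) := by ring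
      have e2 : x + M * q₀ * h = x + (M * h) * q₀ := by ring
      rw [hadd, hone, mul_one]
      conv_lhs => rw [e1, cop_per, ← e1, e2]
      simp only [mod_per]
    have h2 := per_shift (E := ℂ) (fun x => cop M x • (ind (x ≡ ρ [MOD q₀]) • e x))
      (M * q₀ * h) hper (M * q₀)
    have h3 : ∑ x ∈ range (M * q₀ * h), cop M (x + M * q₀) •
        (ind (x + M * q₀ ≡ ρ [MOD q₀]) • e (x + M * q₀)) =
        (∑ x ∈ range (M * q₀ * h), cop M x • (ind (x ≡ ρ [MOD q₀]) • e x)) * e (M * q₀) := by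
      rw [Finset.sum_mul]
      apply Finset.sum_congr rfl
      intro x _
      rw [hadd, cop_per]
      simp only [mod_per, Complex.real_smul]
      ring
    rw [h3] at h2
    set Sg := ∑ x ∈ range (M * q₀ * h), cop M x • (ind (x ≡ ρ [MOD q₀]) • e x) with hSg
    have h4 : Sg * (e (M * q₀) - 1) = 0 := by rw [mul_sub, h2]; ring
    rcases mul_eq_zero.1 h4 with h5 | h5
    · exact h5
    · exact absurd (sub_eq_zero.1 h5) hne
  have h2 := abel (E := ℂ) (fun x => cop M x • (ind (x ≡ ρ [MOD q₀]) • e x))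
    (M * q₀ * h) (Nat.mul_pos (Nat.mul_pos hM hq) (by omega))
    (by
      intro x
      have e1 : x + M * q₀ * h = x + M * (q₀ * h) := by ring
      have e2 : x + M * q₀ * h = x + (M * h) * q₀ := by ring
      rw [hadd, hone, mul_one]
      conv_lhs => rw [e1, cop_per, ← e1, e2]
      simp only [mod_per])
    hzero
    (by
      intro x
      rw [norm_smul, norm_smul, hnorm, mul_one, Real.norm_of_nonneg (cop_nonneg M x),
        Real.norm_of_nonneg (ind_nonneg _)]
      calc cop M x * ind (x ≡ ρ [MOD q₀]) ≤ 1 * 1 :=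
            mul_le_mul (cop_le_one M x) (ind_le_one _) (ind_nonneg _) (by norm_num)
        _ = 1 := one_mul _) (max D ⌊a⌋₊) (min (R * D) ⌊b⌋₊)
  rw [norm_smul, Real.norm_of_nonneg (by positivity : 0 ≤ Z⁻¹)]
  calc _ ≤ (2 / cz M R) * (2 * ((M * q₀ * h : ℕ) : ℝ) / D) := by
        apply mul_le_mul (inv_Z_le hc hZ1) (h2.trans (win_bound hD1 _)) (norm_nonneg _)
          (by positivity)
    _ = _ := by push_cast; ring

/-! ## `CCount` -/

lemma per_mul (P : ℕ → ℝ) (M : ℕ) (hM : 0 < M) (hper : ∀ x, P (x + M) = P x) (τ : ℕ)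
    (hτ : Nat.Coprime τ M) : ∑ t ∈ range M, P (τ * t) = ∑ t ∈ range M, P t := by
  have hmod : ∀ a, P (a % M) = P a := fun a => (show Function.Periodic P M from hper).map_mod_nat a
  have hinj : ∀ x ∈ range M, ∀ y ∈ range M, τ * x % M = τ * y % M → x = y := by
    intro x hx y hy h
    rw [mem_range] at hx hy
    have h1 : τ * x ≡ τ * y [MOD M] := h
    have h2 : x ≡ y [MOD M] := Nat.ModEq.cancel_left_of_coprime (by rwa [Nat.coprime_comm] at hτ) h1
    rw [Nat.ModEq, Nat.mod_eq_of_lt hx, Nat.mod_eq_of_lt hy] at h2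
    exact h2
  have himg : (range M).image (fun t => τ * t % M) = range M := by
    apply Finset.eq_of_subset_of_card_le
    · intro x hx
      rw [mem_image] at hx
      obtain ⟨t, _, rfl⟩ := hx
      rw [mem_range]
      exact Nat.mod_lt _ hM
    · rw [Finset.card_image_of_injOn (fun x hx y hy h => hinj x hx y hy h)]
  calc ∑ t ∈ range M, P (τ * t) = ∑ t ∈ range M, P (τ * t % M) :=
        Finset.sum_congr rfl fun t _ => (hmod _).symm
    _ = ∑ s ∈ (range M).image (fun t => τ * t % M), P s := by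
        rw [Finset.sum_image hinj]
    _ = _ := by rw [himg]

/-- sums over an arithmetic progression. -/
lemma sum_prog (F : ℕ → ℝ) (m κ n : ℕ) (hm : 0 < m) :
    ∑ c ∈ range n, F c * ind (c ≡ κ [MOD m]) =
      ∑ t ∈ range ((n + (m - 1 - κ % m)) / m), F (κ % m + m * t) := by
  have hκ : κ % m < m := Nat.mod_lt _ hm
  have hlt : ∀ t, t < (n + (m - 1 - κ % m)) / m ↔ κ % m + m * t < n := by
    intro t
    rw [← Nat.succ_le_iff, Nat.le_div_iff_mul_le hm, Nat.succ_mul, Nat.mul_comm t m]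
    omega
  have h1 : ∑ c ∈ range n, F c * ind (c ≡ κ [MOD m]) =
      ∑ c ∈ (range n).filter (fun c => c % m = κ % m), F c := by
    rw [Finset.sum_filter]
    apply Finset.sum_congr rfl
    intro c _
    unfold ind
    by_cases h : c % m = κ % m
    · rw [if_pos (show c ≡ κ [MOD m] from h), if_pos h, mul_one]
    · rw [if_neg (fun h' : c ≡ κ [MOD m] => h h'), if_neg h, mul_zero]
  have h2 : (range n).filter (fun c => c % m = κ % m) =
      (range ((n + (m - 1 - κ % m)) / m)).image (fun t => κ % m + m * t) := by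
    ext c
    rw [mem_filter, mem_image, mem_range]
    constructor
    · rintro ⟨h3, h4⟩
      refine ⟨c / m, ?_, ?_⟩
      · rw [mem_range, hlt, ← h4, Nat.mod_add_div]
        exact h3
      · rw [← h4, Nat.mod_add_div]
    · rintro ⟨t, ht, rfl⟩
      rw [mem_range, hlt] at ht
      refine ⟨ht, ?_⟩
      rw [Nat.add_mul_mod_self_left, Nat.mod_mod]
  rw [h1, h2, Finset.sum_image]
  intro x _ y _ h
  simp only at h
  exact Nat.eq_of_mul_eq_mul_left hm (by omega)

lemma prog_len (m κ n : ℕ) (hm : 0 < m) :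
    |(((n + (m - 1 - κ % m)) / m : ℕ) : ℝ) - (n : ℝ) / m| ≤ 1 := by
  have hκ : κ % m < m := Nat.mod_lt _ hm
  have hm' : (0 : ℝ) < m := by exact_mod_cast hm
  set k := (n + (m - 1 - κ % m)) / m with hk
  have h1 : k * m ≤ n + (m - 1 - κ % m) := Nat.div_mul_le_self _ _
  have h2 : n + (m - 1 - κ % m) < m * (k + 1) := Nat.lt_mul_div_succ _ hm
  have h3 : k * m ≤ n + m := by omega
  have h4 : n ≤ m * (k + 1) := by omega
  have h3' : (k : ℝ) * m ≤ n + m := by exact_mod_cast h3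
  have h4' : (n : ℝ) ≤ m * (k + 1) := by exact_mod_cast h4
  rw [abs_le]
  constructor
  · have : (n : ℝ) / m ≤ k + 1 := by
      rw [div_le_iff₀ hm']; linarith
    linarith
  · have : (k : ℝ) - 1 ≤ n / m := by
      rw [le_div_iff₀ hm']; linarith
    linarith

/-- the mean of `cop M` on `κ + q₀ τ t`. -/
lemma mean_prog (M q₀ : ℕ) (hM : 0 < M) (hq : 0 < q₀) (hp : ∀ p, p.Prime → p ∣ q₀ → p ∣ M)
    (τ κ : ℕ) (hτ : Nat.Coprime τ M) (hκ : Nat.Coprime κ q₀) :
    ∑ t ∈ range M, cop M (κ + q₀ * τ * t) = (q₀ : ℝ) * M.totient / q₀.totient := by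
  have hP : ∀ x, cop M (κ % q₀ + q₀ * (x + M)) = cop M (κ % q₀ + q₀ * x) := by
    intro x
    have : κ % q₀ + q₀ * (x + M) = κ % q₀ + q₀ * x + M * q₀ := by ring
    rw [this, cop_per]
  -- the class count in terms of `s ↦ κ₀ + q₀ s`
  have h1 := class_count M q₀ hM hq hp κ hκ
  rw [sum_prog (cop M) q₀ κ (M * q₀) hq] at h1
  have hκ' : κ % q₀ < q₀ := Nat.mod_lt _ hq
  have h2 : (M * q₀ + (q₀ - 1 - κ % q₀)) / q₀ = M := by
    rw [Nat.add_comm, Nat.add_mul_div_right _ _ hq, Nat.div_eq_of_lt (by omega), Nat.zero_add]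
  rw [h2] at h1
  rw [← h1]
  set P : ℕ → ℝ := fun s => cop M (κ % q₀ + q₀ * s) with hPdef
  have h3 : ∀ t, cop M (κ + q₀ * τ * t) = P (κ / q₀ + τ * t) := by
    intro t
    simp only [hPdef]
    congr 1
    have := Nat.mod_add_div κ q₀
    nlinarith
  rw [Finset.sum_congr rfl (fun t _ => h3 t)]
  have h4 := per_mul (fun s => P (κ / q₀ + s)) M hM
    (by intro x; simp only [hPdef]; rw [← Nat.add_assoc]; exact hP _) τ hτ
  rw [h4]
  have h5 := per_shift (E := ℝ) P M (fun x => hP x) (κ / q₀)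
  rw [← h5]
  exact Finset.sum_congr rfl fun t _ => by rw [Nat.add_comm]

/-- PIECE (h). -/
theorem cCount : CCount := by
  intro M q₀ hM hq hp
  refine ⟨2 * (M + 1), by positivity, ?_⟩
  intro τ κ a b hτ0 hτ hκ hab
  have hM' : (0 : ℝ) < M := by exact_mod_cast hM
  have hφ : (0 : ℝ) < q₀.totient := by exact_mod_cast Nat.totient_pos.2 hq
  have hq' : (0 : ℝ) < q₀ := by exact_mod_cast hq
  have hτ' : (0 : ℝ) < τ := by exact_mod_cast hτ0
  set m := q₀ * τ with hm
  have hm0 : 0 < m := Nat.mul_pos hq hτ0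
  have hm' : (0 : ℝ) < m := by exact_mod_cast hm0
  set δ : ℝ := (q₀ : ℝ) * M.totient / q₀.totient / M with hδ
  have hκ' : Nat.Coprime (κ % m) q₀ := by
    have h1 : κ % m ≡ κ [MOD q₀] := (Nat.mod_modEq κ m).of_dvd (Dvd.intro τ rfl)
    rw [Nat.Coprime, h1.gcd_eq]
    exact hκ
  have hmean := mean_prog M q₀ hM hq hp τ (κ % m) hτ hκ'
  rw [← hm] at hmean
  have hδM : δ * M = ∑ t ∈ range M, cop M (κ % m + m * t) := by
    rw [hmean, hδ]; field_simp
  have hδ0 : 0 ≤ δ := by positivity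
  have hδ1 : δ ≤ 1 := by
    have h1 : δ * M ≤ 1 * M := by
      rw [hδM, one_mul]
      calc _ ≤ ∑ t ∈ range M, (1 : ℝ) := Finset.sum_le_sum fun t _ => cop_le_one _ _
        _ = M := by simp
    exact le_of_mul_le_mul_right h1 hM'
  -- partial sums
  have hpart : ∀ k : ℕ, |∑ t ∈ range k, cop M (κ % m + m * t) - k * δ| ≤ M := by
    intro k
    have h1 := partial_le (E := ℝ) (fun t => cop M (κ % m + m * t) - δ) M hM
      (by
        intro x
        have : κ % m + m * (x + M) = κ % m + m * x + M * m := by ring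
        simp only [this, cop_per])
      (by
        rw [Finset.sum_sub_distrib, ← hδM]
        simp only [Finset.sum_const, card_range, nsmul_eq_mul]
        ring)
      (by
        intro x
        rw [Real.norm_eq_abs, abs_le]
        have h2 := cop_nonneg M (κ % m + m * x)
        have h3 := cop_le_one M (κ % m + m * x)
        constructor <;> linarith) k
    rw [Finset.sum_sub_distrib] at h1
    simp only [Finset.sum_const, card_range, nsmul_eq_mul] at h1
    rwa [Real.norm_eq_abs] at h1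
  have hcnt : ∀ n : ℕ, |∑ c ∈ range n, cop M c * ind (c ≡ κ [MOD m]) - n * (δ / m)| ≤ M + 1 := by
    intro n
    rw [sum_prog (cop M) m κ n hm0]
    set k := (n + (m - 1 - κ % m)) / m with hk
    have h1 := hpart k
    have h2 := prog_len m κ n hm0
    rw [← hk] at h2
    have h3 : |(k : ℝ) * δ - n * (δ / m)| ≤ 1 := by
      have : (k : ℝ) * δ - n * (δ / m) = (k - n / m) * δ := by field_simp
      rw [this, abs_mul, abs_of_nonneg hδ0]
      calc |(k : ℝ) - n / m| * δ ≤ 1 * 1 := mul_le_mul h2 hδ1 hδ0 (by norm_num)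
        _ = 1 := one_mul _
    calc _ ≤ |∑ t ∈ range k, cop M (κ % m + m * t) - k * δ| + |(k : ℝ) * δ - n * (δ / m)| :=
          abs_sub_le _ _ _
      _ ≤ M + 1 := add_le_add h1 h3
  have hcard : (((Ioc a b).filter (fun c => Nat.Coprime c M ∧ c ≡ κ [MOD m])).card : ℝ) =
      ∑ c ∈ range (b + 1), cop M c * ind (c ≡ κ [MOD m]) -
        ∑ c ∈ range (a + 1), cop M c * ind (c ≡ κ [MOD m]) := by
    rw [← Finset.sum_Ico_eq_sub _ (by omega : a + 1 ≤ b + 1)]
    have h1 : Ico (a + 1) (b + 1) = Ioc a b := by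
      ext x; simp only [mem_Ioc, mem_Ico]; omega
    rw [h1, Finset.card_filter]
    push_cast
    apply Finset.sum_congr rfl
    intro x _
    unfold cop ind
    by_cases h2 : Nat.Coprime x M <;> by_cases h3 : x ≡ κ [MOD m] <;> simp [h2, h3]
  rw [hcard]
  have h1 := hcnt (b + 1)
  have h2 := hcnt (a + 1)
  have h3 : ((b : ℝ) - a) * (M.totient : ℝ) / (M * ((q₀.totient : ℝ) * τ)) =
      ((b + 1 : ℕ) : ℝ) * (δ / m) - ((a + 1 : ℕ) : ℝ) * (δ / m) := by
    rw [hδ, hm]
    push_cast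
    field_simp
    ring
  rw [h3]
  rw [abs_le] at h1 h2 ⊢
  constructor <;> linarith [h1.1, h1.2, h2.1, h2.2]

end Pool.Agent.T9h11.QD
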